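import Mathlib

set_option autoImplicit false

namespace Pool.Agent.H271Z.Rig

open scoped InnerProductSpace

/-- Euclidean space `ℝ³`. -/
abbrev E3 : Type := EuclideanSpace ℝ (Fin 3)

/-- `V` is a one-dimensional solution: `V'' = f(V)` on all of `ℝ`. -/
def IsOneDimSol (f V : ℝ → ℝ) : Prop :=
  Differentiable ℝ V ∧ Differentiable ℝ (deriv V) ∧ ∀ s : ℝ, deriv (deriv V) s = f (V s)

/-- `Φ` is an isometry up to distortion of one percent on the open ball of radius `δ`. -/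
def IsNearIsometry (δ : ℝ) (Φ : E3 → E3) : Prop :=
  ∀ x ∈ Metric.ball (0 : E3) δ, ∀ y ∈ Metric.ball (0 : E3) δ,
    99 / 100 * ‖x - y‖ ≤ ‖Φ x - Φ y‖ ∧ ‖Φ x - Φ y‖ ≤ 101 / 100 * ‖x - y‖

/-- `u` is homeomorphic to a one-dimensional solution on the unit ball. -/
def HomeoToOneDim (f : ℝ → ℝ) (u : E3 → ℝ) : Prop :=
  ∃ (V : ℝ → ℝ) (a : E3) (Φ : Metric.closedBall (0 : E3) 1 ≃ₜ Metric.closedBall (0 : E3) 1),
    IsOneDimSol f V ∧ ‖a‖ = 1 ∧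
      ∀ x : Metric.closedBall (0 : E3) 1, (x : E3) ∈ Metric.ball (0 : E3) 1 →
        u x = V ⟪(Φ x : E3), a⟫_ℝ

/-- `u` is nearly isometric to a one-dimensional solution on the ball of radius `δ`. -/
def NearIsoToOneDim (f : ℝ → ℝ) (u : E3 → ℝ) (δ : ℝ) : Prop :=
  ∃ (V : ℝ → ℝ) (a : E3) (Φ : E3 → E3),
    IsOneDimSol f V ∧ ‖a‖ = 1 ∧ IsNearIsometry δ Φ ∧
      ∀ x ∈ Metric.ball (0 : E3) δ, u x = V ⟪Φ x, a⟫_ℝ

end Pool.Agent.H271Z.Rig
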