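import Mathlib

set_option autoImplicit false

namespace Pool.Agent.H271Z.Rig

open Real Set

def PP (s t : ℝ) : ℝ := -32 * t + 8 * s + 32 * t ^ 2 - 48 * s * t + 4 * s ^ 2

def QQ (s t : ℝ) : ℝ := 8 - 48 * t + 36 * s + 8 * t ^ 2 - 20 * s * t + 5 * s ^ 2

def MM (s t : ℝ) : ℝ := s * (PP s t ^ 2 + t * QQ s t ^ 2)

def bb (t : ℝ) : ℝ :=
  144 + (-47) * t + (-37) * t ^ 2 + 42 * t ^ 3 + (-570) * t ^ 4 + 1557 * t ^ 5 + (-1089) * t ^ 6

def gg (t : ℝ) : ℝ :=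
  47 + 37 * t + (-42) * t ^ 2 + 570 * t ^ 3 + (-1557) * t ^ 4 + 1089 * t ^ 5

def w1 (x y z : ℝ) : ℝ := x * PP (x ^ 2 + y ^ 2) (z ^ 2) - y * z * QQ (x ^ 2 + y ^ 2) (z ^ 2)

def w2 (x y z : ℝ) : ℝ := y * PP (x ^ 2 + y ^ 2) (z ^ 2) + x * z * QQ (x ^ 2 + y ^ 2) (z ^ 2)

lemma MM_bdry (t : ℝ) : MM (1 - t) t = bb t := by
  unfold MM PP QQ bb; ring

lemma bb_eq (t : ℝ) : bb t = 144 - t * gg t := by
  unfold bb gg; ring

lemma w_sq (x y z : ℝ) : w1 x y z ^ 2 + w2 x y z ^ 2 = MM (x ^ 2 + y ^ 2) (z ^ 2) := by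
  unfold w1 w2 MM; ring

lemma MM_zero (t : ℝ) : MM 0 t = 0 := by unfold MM; ring

def DD (s t : ℝ) : ℝ :=
  64 * t + 256 * t ^ 2 + 384 * t ^ 3 + 256 * t ^ 4 + 64 * t ^ 5 + 128 * s * t + (-384) * s * t ^ 2 + (-1152) * s * t ^ 3 + (-640) * s * t ^ 4 + 192 * s ^ 2 + 1056 * s ^ 2 * t + 1920 * s ^ 2 * t ^ 2 + 1440 * s ^ 2 * t ^ 3 + 256 * s ^ 3 + (-96) * s ^ 3 * t + (-800) * s ^ 3 * t ^ 2 + 80 * s ^ 4 + 125 * s ^ 4 * t

lemma DD_pos (s t : ℝ) (hs : 0 < s) (ht : 0 ≤ t) (hst : s + t ≤ 1) : 0 < DD s t := by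
  obtain ⟨r, hr⟩ : ∃ r, r = 1 - s - t := ⟨_, rfl⟩
  have hr0 : 0 ≤ r := by linarith
  have : DD s t = 64 * t * r ^ 4 + 512 * t ^ 2 * r ^ 3 + 1536 * t ^ 3 * r ^ 2 + 2048 * t ^ 4 * r + 1024 * t ^ 5 + 384 * s * t * r ^ 3 + 1536 * s * t ^ 2 * r ^ 2 + 1536 * s * t ^ 3 * r + 192 * s ^ 2 * r ^ 3 + 2400 * s ^ 2 * t * r ^ 2 + 6144 * s ^ 2 * t ^ 2 * r + 4608 * s ^ 2 * t ^ 3 + 832 * s ^ 3 * r ^ 2 + 4320 * s ^ 3 * t * r + 4480 * s ^ 3 * t ^ 2 + 1168 * s ^ 4 * r + 2445 * s ^ 4 * t + 528 * s ^ 5 := by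
    rw [hr]; unfold DD; ring
  rw [this]; positivity

lemma MM_deriv (s t : ℝ) : HasDerivAt (fun s => MM s t) (DD s t) s := by
  have hP : HasDerivAt (fun s => PP s t) (8 - 48 * t + 8 * s) s := by
    unfold PP
    have := (((((hasDerivAt_id s).const_mul 8).const_add (-32 * t)).add_const (32 * t ^ 2)).sub
      (((hasDerivAt_id s).const_mul 48).mul_const t)).add ((hasDerivAt_pow 2 s).const_mul 4)
    exact this.congr_deriv (by simp; ring)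
  have hQ : HasDerivAt (fun s => QQ s t) (36 - 20 * t + 10 * s) s := by
    unfold QQ
    have := (((((hasDerivAt_id s).const_mul 36).const_add (8 - 48 * t)).add_const (8 * t ^ 2)).sub
      (((hasDerivAt_id s).const_mul 20).mul_const t)).add ((hasDerivAt_pow 2 s).const_mul 5)
    exact this.congr_deriv (by simp; ring)
  have := (hasDerivAt_id s).mul ((hP.pow 2).add ((hQ.pow 2).const_mul t))
  refine this.congr_deriv ?_
  simp only [id, Pi.add_apply, Pi.pow_apply]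
  unfold DD PP QQ
  push_cast
  ring

lemma MM_mono (t : ℝ) (ht : 0 ≤ t) : StrictMonoOn (fun s => MM s t) (Icc 0 (1 - t)) := by
  refine strictMonoOn_of_deriv_pos (convex_Icc _ _)
    (HasDerivAt.continuousOn fun s _ => MM_deriv s t) fun s hs => ?_
  rw [interior_Icc] at hs
  rw [(MM_deriv s t).deriv]
  exact DD_pos s t hs.1 ht (by linarith [hs.2])

lemma MM_cont (t : ℝ) : Continuous fun s => MM s t := by
  unfold MM PP QQ; fun_prop

/-- Step 1: injectivity. -/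
lemma step1_inj {x y x' y' z : ℝ} (h : x ^ 2 + y ^ 2 + z ^ 2 ≤ 1) (h' : x' ^ 2 + y' ^ 2 + z ^ 2 ≤ 1)
    (h1 : w1 x y z = w1 x' y' z) (h2 : w2 x y z = w2 x' y' z) : x = x' ∧ y = y' := by
  have hm := MM_mono (z ^ 2) (sq_nonneg z)
  have hs : x ^ 2 + y ^ 2 ∈ Icc 0 (1 - z ^ 2) := ⟨by positivity, by linarith⟩
  have hs' : x' ^ 2 + y' ^ 2 ∈ Icc 0 (1 - z ^ 2) := ⟨by positivity, by linarith⟩
  have he : x ^ 2 + y ^ 2 = x' ^ 2 + y' ^ 2 := by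
    apply hm.injOn hs hs'
    simp only
    rw [← w_sq, ← w_sq, h1, h2]
  rcases eq_or_lt_of_le hs.1 with h0 | h0
  · have hx : x = 0 := by nlinarith [sq_nonneg x, sq_nonneg y]
    have hy : y = 0 := by nlinarith [sq_nonneg x, sq_nonneg y]
    have hx' : x' = 0 := by nlinarith [sq_nonneg x', sq_nonneg y']
    have hy' : y' = 0 := by nlinarith [sq_nonneg x', sq_nonneg y']
    simp [hx, hy, hx', hy']
  · have hpos : 0 < MM (x ^ 2 + y ^ 2) (z ^ 2) := by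
      have := hm ⟨le_rfl, le_trans hs.1 hs.2⟩ hs h0
      simpa [MM_zero] using this
    unfold w1 at h1
    unfold w2 at h2
    rw [← he] at h1 h2
    unfold MM at hpos
    set p := PP (x ^ 2 + y ^ 2) (z ^ 2)
    set q := QQ (x ^ 2 + y ^ 2) (z ^ 2)
    have hN : 0 < p ^ 2 + z ^ 2 * q ^ 2 := (pos_iff_pos_of_mul_pos hpos).mp h0
    constructor
    · have : (x - x') * (p ^ 2 + z ^ 2 * q ^ 2) = 0 := by
        linear_combination p * h1 + z * q * h2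
      rcases mul_eq_zero.mp this with h | h
      · linarith
      · exact absurd h hN.ne'
    · have : (y - y') * (p ^ 2 + z ^ 2 * q ^ 2) = 0 := by
        linear_combination (-(z * q)) * h1 + p * h2
      rcases mul_eq_zero.mp this with h | h
      · linarith
      · exact absurd h hN.ne'

lemma step1_maps {x y z : ℝ} (h : x ^ 2 + y ^ 2 + z ^ 2 ≤ 1) :
    w1 x y z ^ 2 + w2 x y z ^ 2 ≤ bb (z ^ 2) := by
  rw [w_sq, ← MM_bdry]
  have hm := (MM_mono (z ^ 2) (sq_nonneg z)).monotoneOn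
  have hs : x ^ 2 + y ^ 2 ∈ Icc 0 (1 - z ^ 2) := ⟨by positivity, by linarith⟩
  exact hm hs ⟨le_trans hs.1 hs.2, le_rfl⟩ hs.2

lemma step1_surj {a b z : ℝ} (hz : z ^ 2 ≤ 1) (h : a ^ 2 + b ^ 2 ≤ bb (z ^ 2)) :
    ∃ x y : ℝ, x ^ 2 + y ^ 2 + z ^ 2 ≤ 1 ∧ w1 x y z = a ∧ w2 x y z = b := by
  have hI := intermediate_value_Icc (a := 0) (b := 1 - z ^ 2) (by linarith)
    (MM_cont (z ^ 2)).continuousOn
  obtain ⟨s, hs, hs'⟩ := hI (show a ^ 2 + b ^ 2 ∈ Icc (MM 0 (z ^ 2)) (MM (1 - z ^ 2) (z ^ 2)) from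
    ⟨by rw [MM_zero]; positivity, by rw [MM_bdry]; exact h⟩)
  simp only at hs'
  rcases eq_or_lt_of_le hs.1 with h0 | h0
  · rw [← h0, MM_zero] at hs'
    have ha : a = 0 := by nlinarith [sq_nonneg a, sq_nonneg b]
    have hb : b = 0 := by nlinarith [sq_nonneg a, sq_nonneg b]
    exact ⟨0, 0, by simpa using hz, by simp [w1, ha], by simp [w2, hb]⟩
  · have hm := MM_mono (z ^ 2) (sq_nonneg z)
    have hpos : 0 < MM s (z ^ 2) := by
      have := hm ⟨le_rfl, le_trans hs.1 hs.2⟩ hs h0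
      simpa [MM_zero] using this
    unfold MM at hpos hs'
    set p := PP s (z ^ 2) with hp
    set q := QQ s (z ^ 2) with hq
    have hN : 0 < p ^ 2 + z ^ 2 * q ^ 2 := (pos_iff_pos_of_mul_pos hpos).mp h0
    have hsq : ((a * p + b * z * q) / (p ^ 2 + z ^ 2 * q ^ 2)) ^ 2 +
        ((b * p - a * z * q) / (p ^ 2 + z ^ 2 * q ^ 2)) ^ 2 = s := by
      field_simp
      linear_combination (-(p ^ 2 + z ^ 2 * q ^ 2)) * hs'
    refine ⟨(a * p + b * z * q) / (p ^ 2 + z ^ 2 * q ^ 2),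
      (b * p - a * z * q) / (p ^ 2 + z ^ 2 * q ^ 2), by rw [hsq]; linarith [hs.2], ?_, ?_⟩
    · unfold w1; rw [hsq, ← hp, ← hq]; field_simp; ring
    · unfold w2; rw [hsq, ← hp, ← hq]; field_simp; ring

end Pool.Agent.H271Z.Rig
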