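import Mathlib
import Pool.Agent.H271Z.Rig.Defs
import Pool.Agent.H271Z.Rig.Poly

set_option autoImplicit false

namespace Pool.Agent.H271Z.Rig

open Real Set

def c2x (x y z : ℝ) : ℝ := (-36) * y * z + 20 * y * z ^ 3 + (-10) * y ^ 3 * z + 24 * x + (-144) * x * z ^ 2 + 24 * x * y ^ 2 + (-30) * x ^ 2 * y * z + 40 * x ^ 3

lemma w1_expx (x y z : ℝ) : ∃ a0 a1 a3 a4 a5 a6 : ℝ, ∀ t : ℝ, w1 (x + t) y z =
    a0 + a1 * t + c2x x y z * t ^ 2 + a3 * t ^ 3 + a4 * t ^ 4 + a5 * t ^ 5 + a6 * t ^ 6 :=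
  ⟨(-8) * y * z + 48 * y * z ^ 3 + (-8) * y * z ^ 5 + (-36) * y ^ 3 * z + 20 * y ^ 3 * z ^ 3 + (-5) * y ^ 5 * z + (-32) * x * z ^ 2 + 32 * x * z ^ 4 + 8 * x * y ^ 2 + (-48) * x * y ^ 2 * z ^ 2 + 4 * x * y ^ 4 + (-36) * x ^ 2 * y * z + 20 * x ^ 2 * y * z ^ 3 + (-10) * x ^ 2 * y ^ 3 * z + 8 * x ^ 3 + (-48) * x ^ 3 * z ^ 2 + 8 * x ^ 3 * y ^ 2 + (-5) * x ^ 4 * y * z + 4 * x ^ 5,
   (-32) * z ^ 2 + 32 * z ^ 4 + 8 * y ^ 2 + (-48) * y ^ 2 * z ^ 2 + 4 * y ^ 4 + (-72) * x * y * z + 40 * x * y * z ^ 3 + (-20) * x * y ^ 3 * z + 24 * x ^ 2 + (-144) * x ^ 2 * z ^ 2 + 24 * x ^ 2 * y ^ 2 + (-20) * x ^ 3 * y * z + 20 * x ^ 4,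
   8 + (-48) * z ^ 2 + 8 * y ^ 2 + (-20) * x * y * z + 40 * x ^ 2,
   (-5) * y * z + 20 * x,
   4,
   0, fun t => by unfold w1 PP QQ c2x; ring⟩

def c2y (x y z : ℝ) : ℝ := (-108) * y * z + 60 * y * z ^ 3 + (-50) * y ^ 3 * z + 8 * x + (-48) * x * z ^ 2 + 24 * x * y ^ 2 + (-30) * x ^ 2 * y * z + 8 * x ^ 3

lemma w1_expy (x y z : ℝ) : ∃ a0 a1 a3 a4 a5 a6 : ℝ, ∀ t : ℝ, w1 x (y + t) z =
    a0 + a1 * t + c2y x y z * t ^ 2 + a3 * t ^ 3 + a4 * t ^ 4 + a5 * t ^ 5 + a6 * t ^ 6 :=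
  ⟨(-8) * y * z + 48 * y * z ^ 3 + (-8) * y * z ^ 5 + (-36) * y ^ 3 * z + 20 * y ^ 3 * z ^ 3 + (-5) * y ^ 5 * z + (-32) * x * z ^ 2 + 32 * x * z ^ 4 + 8 * x * y ^ 2 + (-48) * x * y ^ 2 * z ^ 2 + 4 * x * y ^ 4 + (-36) * x ^ 2 * y * z + 20 * x ^ 2 * y * z ^ 3 + (-10) * x ^ 2 * y ^ 3 * z + 8 * x ^ 3 + (-48) * x ^ 3 * z ^ 2 + 8 * x ^ 3 * y ^ 2 + (-5) * x ^ 4 * y * z + 4 * x ^ 5,
   (-8) * z + 48 * z ^ 3 + (-8) * z ^ 5 + (-108) * y ^ 2 * z + 60 * y ^ 2 * z ^ 3 + (-25) * y ^ 4 * z + 16 * x * y + (-96) * x * y * z ^ 2 + 16 * x * y ^ 3 + (-36) * x ^ 2 * z + 20 * x ^ 2 * z ^ 3 + (-30) * x ^ 2 * y ^ 2 * z + 16 * x ^ 3 * y + (-5) * x ^ 4 * z,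
   (-36) * z + 20 * z ^ 3 + (-50) * y ^ 2 * z + 16 * x * y + (-10) * x ^ 2 * z,
   (-25) * y * z + 4 * x,
   (-5) * z,
   0, fun t => by unfold w1 PP QQ c2y; ring⟩

def c2z (x y z : ℝ) : ℝ := 144 * y * z + (-80) * y * z ^ 3 + 60 * y ^ 3 * z + (-32) * x + 192 * x * z ^ 2 + (-48) * x * y ^ 2 + 60 * x ^ 2 * y * z + (-48) * x ^ 3

lemma w1_expz (x y z : ℝ) : ∃ a0 a1 a3 a4 a5 a6 : ℝ, ∀ t : ℝ, w1 x y (z + t) =
    a0 + a1 * t + c2z x y z * t ^ 2 + a3 * t ^ 3 + a4 * t ^ 4 + a5 * t ^ 5 + a6 * t ^ 6 :=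
  ⟨(-8) * y * z + 48 * y * z ^ 3 + (-8) * y * z ^ 5 + (-36) * y ^ 3 * z + 20 * y ^ 3 * z ^ 3 + (-5) * y ^ 5 * z + (-32) * x * z ^ 2 + 32 * x * z ^ 4 + 8 * x * y ^ 2 + (-48) * x * y ^ 2 * z ^ 2 + 4 * x * y ^ 4 + (-36) * x ^ 2 * y * z + 20 * x ^ 2 * y * z ^ 3 + (-10) * x ^ 2 * y ^ 3 * z + 8 * x ^ 3 + (-48) * x ^ 3 * z ^ 2 + 8 * x ^ 3 * y ^ 2 + (-5) * x ^ 4 * y * z + 4 * x ^ 5,
   (-8) * y + 144 * y * z ^ 2 + (-40) * y * z ^ 4 + (-36) * y ^ 3 + 60 * y ^ 3 * z ^ 2 + (-5) * y ^ 5 + (-64) * x * z + 128 * x * z ^ 3 + (-96) * x * y ^ 2 * z + (-36) * x ^ 2 * y + 60 * x ^ 2 * y * z ^ 2 + (-10) * x ^ 2 * y ^ 3 + (-96) * x ^ 3 * z + (-5) * x ^ 4 * y,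
   48 * y + (-80) * y * z ^ 2 + 20 * y ^ 3 + 128 * x * z + 20 * x ^ 2 * y,
   (-40) * y * z + 32 * x,
   (-8) * y,
   0, fun t => by unfold w1 PP QQ c2z; ring⟩

lemma c2_sum (x y z : ℝ) : c2x x y z + c2y x y z + c2z x y z = 0 := by
  unfold c2x c2y c2z; ring

lemma deriv2_poly (a0 a1 a2 a3 a4 a5 a6 : ℝ) :
    deriv (deriv fun t : ℝ =>
      a0 + a1 * t + a2 * t ^ 2 + a3 * t ^ 3 + a4 * t ^ 4 + a5 * t ^ 5 + a6 * t ^ 6) 0 = 2 * a2 := by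
  have h1 : ∀ t : ℝ, HasDerivAt (fun t : ℝ =>
      a0 + a1 * t + a2 * t ^ 2 + a3 * t ^ 3 + a4 * t ^ 4 + a5 * t ^ 5 + a6 * t ^ 6)
      (a1 + 2 * a2 * t + 3 * a3 * t ^ 2 + 4 * a4 * t ^ 3 + 5 * a5 * t ^ 4 + 6 * a6 * t ^ 5) t := by
    intro t
    have := ((((((((hasDerivAt_id t).const_mul a1).const_add a0).add
      ((hasDerivAt_pow 2 t).const_mul a2)).add ((hasDerivAt_pow 3 t).const_mul a3)).add
      ((hasDerivAt_pow 4 t).const_mul a4)).add ((hasDerivAt_pow 5 t).const_mul a5)).add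
      ((hasDerivAt_pow 6 t).const_mul a6))
    exact this.congr_deriv (by simp; ring)
  rw [funext fun t => (h1 t).deriv]
  have := (((((((hasDerivAt_id (0 : ℝ)).const_mul (2 * a2)).const_add a1).add
      ((hasDerivAt_pow 2 (0 : ℝ)).const_mul (3 * a3))).add
      ((hasDerivAt_pow 3 (0 : ℝ)).const_mul (4 * a4))).add
      ((hasDerivAt_pow 4 (0 : ℝ)).const_mul (5 * a5))).add
      ((hasDerivAt_pow 5 (0 : ℝ)).const_mul (6 * a6)))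
  have h2 : HasDerivAt (fun t : ℝ =>
      a1 + 2 * a2 * t + 3 * a3 * t ^ 2 + 4 * a4 * t ^ 3 + 5 * a5 * t ^ 4 + 6 * a6 * t ^ 5)
      (2 * a2) 0 := this.congr_deriv (by simp)
  exact h2.deriv

lemma iter2_line (g : E3 → ℝ) (hg : ContDiff ℝ 2 g) (x v : E3) :
    iteratedFDeriv ℝ 2 g x ![v, v] = deriv (deriv fun t : ℝ => g (x + t • v)) 0 := by
  have hline : ∀ t : ℝ, HasDerivAt (fun t : ℝ => x + t • v) v t := fun t => by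
    simpa using ((hasDerivAt_id t).smul_const v).const_add x
  have hd : Differentiable ℝ g := hg.differentiable (by norm_num)
  have h1 : (deriv fun t : ℝ => g (x + t • v)) = fun t => fderiv ℝ g (x + t • v) v := by
    funext t
    exact ((hd _).hasFDerivAt.comp_hasDerivAt t (hline t)).deriv
  have hd2 : Differentiable ℝ (fderiv ℝ g) :=
    (hg.fderiv_right (m := 1) (by norm_num)).differentiable (by norm_num)
  rw [h1, iteratedFDeriv_two_apply]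
  have h2 : HasDerivAt (fun t : ℝ => fderiv ℝ g (x + t • v)) (fderiv ℝ (fderiv ℝ g) x v) 0 := by
    have := (hd2 (x + (0 : ℝ) • v)).hasFDerivAt.comp_hasDerivAt (0 : ℝ) (hline 0)
    rw [zero_smul, add_zero] at this
    exact this
  have h3 := h2.clm_apply (hasDerivAt_const (0 : ℝ) v)
  simp only [map_zero, add_zero] at h3
  simpa using h3.deriv.symm

/-- The solution. -/
noncomputable def uu (m e c : ℝ) (p : E3) : ℝ :=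
  m + (e * w1 (p 0) (p 1) (p 2) + c * p 2 ^ 2 / 2)

lemma uu_smooth (m e c : ℝ) (n : WithTop ℕ∞) : ContDiff ℝ n (uu m e c) := by
  unfold uu w1 PP QQ
  fun_prop

lemma uu_lap (m e c : ℝ) (p : E3) : Laplacian.laplacian (uu m e c) p = c := by
  rw [InnerProductSpace.laplacian_eq_iteratedFDeriv_orthonormalBasis _
    (EuclideanSpace.basisFun (Fin 3) ℝ)]
  simp only [Fin.sum_univ_three, iter2_line _ (uu_smooth m e c 2)]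
  obtain ⟨a0, a1, a3, a4, a5, a6, hx⟩ := w1_expx (p 0) (p 1) (p 2)
  obtain ⟨b0, b1, b3, b4, b5, b6, hy⟩ := w1_expy (p 0) (p 1) (p 2)
  obtain ⟨d0, d1, d3, d4, d5, d6, hz⟩ := w1_expz (p 0) (p 1) (p 2)
  have e0 : (fun t : ℝ => uu m e c (p + t • EuclideanSpace.basisFun (Fin 3) ℝ 0)) = fun t : ℝ =>
      (m + e * a0 + c * p 2 ^ 2 / 2) + (e * a1) * t + (e * c2x (p 0) (p 1) (p 2)) * t ^ 2
        + (e * a3) * t ^ 3 + (e * a4) * t ^ 4 + (e * a5) * t ^ 5 + (e * a6) * t ^ 6 := by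
    funext t
    unfold uu
    simp [hx]
    ring
  have e1 : (fun t : ℝ => uu m e c (p + t • EuclideanSpace.basisFun (Fin 3) ℝ 1)) = fun t : ℝ =>
      (m + e * b0 + c * p 2 ^ 2 / 2) + (e * b1) * t + (e * c2y (p 0) (p 1) (p 2)) * t ^ 2
        + (e * b3) * t ^ 3 + (e * b4) * t ^ 4 + (e * b5) * t ^ 5 + (e * b6) * t ^ 6 := by
    funext t
    unfold uu
    simp [hy]
    ring
  have e2 : (fun t : ℝ => uu m e c (p + t • EuclideanSpace.basisFun (Fin 3) ℝ 2)) = fun t : ℝ =>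
      (m + e * d0 + c * p 2 ^ 2 / 2) + (e * d1 + c * p 2) * t
        + (e * c2z (p 0) (p 1) (p 2) + c / 2) * t ^ 2
        + (e * d3) * t ^ 3 + (e * d4) * t ^ 4 + (e * d5) * t ^ 5 + (e * d6) * t ^ 6 := by
    funext t
    unfold uu
    simp [hz]
    ring
  rw [e0, e1, e2, deriv2_poly, deriv2_poly, deriv2_poly]
  linear_combination 2 * e * c2_sum (p 0) (p 1) (p 2)

end Pool.Agent.H271Z.Rig
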