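import Mathlib
import Pool.Agent.H271Z.Rig.Poly

set_option autoImplicit false

namespace Pool.Agent.H271Z.Rig

open Real Set

/-- `aa e c ξ t * t = AA`. -/
noncomputable def aa (e c ξ t : ℝ) : ℝ := e ^ 2 * gg t - c * ξ + c ^ 2 * t / 4

lemma db_ge (t : ℝ) (h0 : 0 ≤ t) (h1 : t ≤ 1) :
    25 ≤ 47 + 74 * t + (-126) * t ^ 2 + 2280 * t ^ 3 + (-7785) * t ^ 4 + 6534 * t ^ 5 := by
  nlinarith [mul_nonneg h0 (sq_nonneg (t ^ 2 - 0.62 * t)), sq_nonneg (t ^ 2 - 0.365 * t - 0.25),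
    mul_nonneg h0 (sub_nonneg.mpr h1)]

lemma AA_mono (e c ξ : ℝ) (he : 0 < e) (hc : 0 ≤ c) (hce : c ≤ 2 * e) (hξ : ξ ≤ 12 * e) :
    StrictMonoOn (fun t => t * aa e c ξ t) (Icc 0 1) := by
  have hd : ∀ t : ℝ, HasDerivAt (fun t => t * aa e c ξ t)
      (e ^ 2 * (47 + 74 * t + (-126) * t ^ 2 + 2280 * t ^ 3 + (-7785) * t ^ 4 + 6534 * t ^ 5)
        - c * ξ + c ^ 2 * t / 2) t := by
    intro t
    have hg : HasDerivAt gg (37 - 84 * t + 1710 * t ^ 2 - 6228 * t ^ 3 + 5445 * t ^ 4) t := by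
      have := (((((((hasDerivAt_id t).const_mul 37).const_add 47).add
        ((hasDerivAt_pow 2 t).const_mul (-42))).add ((hasDerivAt_pow 3 t).const_mul 570)).add
        ((hasDerivAt_pow 4 t).const_mul (-1557))).add ((hasDerivAt_pow 5 t).const_mul 1089))
      exact this.congr_deriv (by simp; ring)
    have := (hasDerivAt_id t).mul (((hg.const_mul (e ^ 2)).sub_const (c * ξ)).add
      (((hasDerivAt_id t).const_mul (c ^ 2)).div_const 4))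
    refine this.congr_deriv ?_
    simp only [id, Pi.add_apply]
    unfold gg
    ring
  refine strictMonoOn_of_deriv_pos (convex_Icc _ _)
    (HasDerivAt.continuousOn fun s _ => hd s) fun s hs => ?_
  rw [interior_Icc] at hs
  rw [(hd s).deriv]
  have h1 := db_ge s hs.1.le hs.2.le
  have h2 : c * ξ ≤ 2 * e * (12 * e) := by
    calc c * ξ ≤ c * (12 * e) := by gcongr
      _ ≤ 2 * e * (12 * e) := by gcongr
  have h3 : 0 ≤ c ^ 2 * s / 2 := by have := hs.1; positivity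
  have h4 : e ^ 2 * 25 ≤ e ^ 2 *
      (47 + 74 * s + (-126) * s ^ 2 + 2280 * s ^ 3 + (-7785) * s ^ 4 + 6534 * s ^ 5) := by gcongr
  nlinarith [sq_pos_of_pos he]

lemma aa_pos (e c ξ t : ℝ) (he : 0 < e) (hc : 0 ≤ c) (hce : c ≤ 2 * e) (hξ : ξ ≤ 12 * e)
    (h0 : 0 ≤ t) (h1 : t ≤ 1) : 0 < aa e c ξ t := by
  rcases eq_or_lt_of_le h0 with h | h
  · rw [← h]; unfold aa gg
    have h2 : c * ξ ≤ 2 * e * (12 * e) := by
      calc c * ξ ≤ c * (12 * e) := by gcongr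
        _ ≤ 2 * e * (12 * e) := by gcongr
    nlinarith [sq_pos_of_pos he]
  · have := AA_mono e c ξ he hc hce hξ ⟨le_rfl, zero_le_one⟩ ⟨h0, h1⟩ h
    simp only [zero_mul] at this
    exact (pos_iff_pos_of_mul_pos this).mp h

/-- The first coordinate is bounded: `|ξ| ≤ 12 e`. -/
lemma xi_le (e c a b z : ℝ) (he : 0 < e) (hc : 0 ≤ c) (hce : c ≤ 2 * e) (hz : z ^ 2 ≤ 1)
    (h : a ^ 2 + b ^ 2 ≤ bb (z ^ 2)) : e * a + c * z ^ 2 / 2 ≤ 12 * e := by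
  have h1 := aa_pos e c (12 * e) (z ^ 2) he hc hce le_rfl (sq_nonneg z) hz
  have h2 : (e * a) ^ 2 ≤ (12 * e - c * z ^ 2 / 2) ^ 2 := by
    rw [bb_eq] at h
    unfold aa at h1
    have h3 : e ^ 2 * a ^ 2 ≤ e ^ 2 * (144 - z ^ 2 * gg (z ^ 2)) := by
      gcongr; nlinarith [sq_nonneg b]
    nlinarith [mul_nonneg (sq_nonneg z) h1.le]
  have h4 : 0 ≤ 12 * e - c * z ^ 2 / 2 := by nlinarith
  have := abs_le_of_sq_le_sq' h2 h4
  linarith [this.2]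

noncomputable def zeta (e c ξ z : ℝ) : ℝ := z * √(aa e c ξ (z ^ 2))

lemma zeta_sq (e c ξ z : ℝ) (he : 0 < e) (hc : 0 ≤ c) (hce : c ≤ 2 * e) (hξ : ξ ≤ 12 * e)
    (hz : z ^ 2 ≤ 1) : zeta e c ξ z ^ 2 = z ^ 2 * aa e c ξ (z ^ 2) := by
  unfold zeta
  rw [mul_pow, Real.sq_sqrt (aa_pos e c ξ _ he hc hce hξ (sq_nonneg z) hz).le]

lemma step2_id (e c a b z : ℝ) :
    (e * a + c * z ^ 2 / 2) ^ 2 + (e * b) ^ 2 + z ^ 2 * aa e c (e * a + c * z ^ 2 / 2) (z ^ 2)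
      = (12 * e) ^ 2 - e ^ 2 * (bb (z ^ 2) - (a ^ 2 + b ^ 2)) := by
  rw [bb_eq]; unfold aa; ring

lemma step2_maps (e c a b z : ℝ) (he : 0 < e) (hc : 0 ≤ c) (hce : c ≤ 2 * e) (hz : z ^ 2 ≤ 1)
    (h : a ^ 2 + b ^ 2 ≤ bb (z ^ 2)) :
    (e * a + c * z ^ 2 / 2) ^ 2 + (e * b) ^ 2 + zeta e c (e * a + c * z ^ 2 / 2) z ^ 2
      ≤ (12 * e) ^ 2 := by
  rw [zeta_sq e c _ z he hc hce (xi_le e c a b z he hc hce hz h) hz, step2_id]
  have : 0 ≤ e ^ 2 * (bb (z ^ 2) - (a ^ 2 + b ^ 2)) := by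
    have := sub_nonneg.mpr h; positivity
  linarith

lemma step2_inj (e c ξ z z' : ℝ) (he : 0 < e) (hc : 0 ≤ c) (hce : c ≤ 2 * e) (hξ : ξ ≤ 12 * e)
    (hz : z ^ 2 ≤ 1) (hz' : z' ^ 2 ≤ 1) (h : zeta e c ξ z = zeta e c ξ z') : z = z' := by
  have h1 : z ^ 2 = z' ^ 2 := by
    apply (AA_mono e c ξ he hc hce hξ).injOn ⟨sq_nonneg _, hz⟩ ⟨sq_nonneg _, hz'⟩
    simp only
    rw [← zeta_sq e c ξ z he hc hce hξ hz, ← zeta_sq e c ξ z' he hc hce hξ hz', h]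
  unfold zeta at h
  rw [← h1] at h
  have h2 : 0 < √(aa e c ξ (z ^ 2)) :=
    Real.sqrt_pos.mpr (aa_pos e c ξ _ he hc hce hξ (sq_nonneg z) hz)
  exact mul_right_cancel₀ h2.ne' h

lemma step2_surj (e c ξ η ζ : ℝ) (he : 0 < e) (hc : 0 ≤ c) (hce : c ≤ 2 * e)
    (h : ξ ^ 2 + η ^ 2 + ζ ^ 2 ≤ (12 * e) ^ 2) :
    ∃ a b z : ℝ, z ^ 2 ≤ 1 ∧ a ^ 2 + b ^ 2 ≤ bb (z ^ 2) ∧ e * a + c * z ^ 2 / 2 = ξ ∧ e * b = η ∧
      zeta e c ξ z = ζ := by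
  have hξ : ξ ≤ 12 * e := by
    have := abs_le_of_sq_le_sq' (a := ξ) (b := 12 * e)
      (by nlinarith [sq_nonneg η, sq_nonneg ζ]) (by positivity)
    exact this.2
  have hcont : Continuous fun z => zeta e c ξ z := by
    unfold zeta aa gg; fun_prop
  have h1 : ζ ^ 2 ≤ aa e c ξ 1 := by
    unfold aa gg
    nlinarith [sq_nonneg η, sq_nonneg (ξ - c / 2)]
  have h2 := abs_le.mp (Real.abs_le_sqrt h1)
  have hI := intermediate_value_Icc (a := -1) (b := 1) (by norm_num) hcont.continuousOn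
  obtain ⟨z, hz, hz'⟩ := hI (show ζ ∈ Icc (zeta e c ξ (-1)) (zeta e c ξ 1) from
    ⟨by unfold zeta; simpa using h2.1, by unfold zeta; simpa using h2.2⟩)
  simp only at hz'
  have hz1 : z ^ 2 ≤ 1 := by nlinarith [hz.1, hz.2]
  have ha : e * ((ξ - c * z ^ 2 / 2) / e) + c * z ^ 2 / 2 = ξ := by field_simp; ring
  have hb : e * (η / e) = η := by field_simp
  refine ⟨(ξ - c * z ^ 2 / 2) / e, η / e, z, hz1, ?_, ha, hb, hz'⟩
  have h3 := step2_id e c ((ξ - c * z ^ 2 / 2) / e) (η / e) z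
  rw [ha, hb, ← zeta_sq e c ξ z he hc hce hξ hz1, hz'] at h3
  have h4 : 0 ≤ e ^ 2 * (bb (z ^ 2) - (((ξ - c * z ^ 2 / 2) / e) ^ 2 + (η / e) ^ 2)) := by
    linarith
  by_contra hcon
  push Not at hcon
  have : e ^ 2 * (bb (z ^ 2) - (((ξ - c * z ^ 2 / 2) / e) ^ 2 + (η / e) ^ 2)) < 0 :=
    mul_neg_of_pos_of_neg (by positivity) (by linarith)
  linarith

noncomputable def XX (R c ξ : ℝ) : ℝ := (2 * ξ + c) / (R + √(R ^ 2 + c ^ 2 + 2 * c * ξ))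

noncomputable def lam (R c X : ℝ) : ℝ := √((R + c * (1 + X) / 2) * (R - c * (1 - X) / 2))

lemma XX_par (R c X : ℝ) (hc : 0 ≤ c) (hcR : c < R) (hX : -1 ≤ X) :
    XX R c (c * X ^ 2 / 2 + R * X - c / 2) = X := by
  unfold XX
  have h1 : R ^ 2 + c ^ 2 + 2 * c * (c * X ^ 2 / 2 + R * X - c / 2) = (R + c * X) ^ 2 := by ring
  have h2 : 0 < R + c * X := by nlinarith
  rw [h1, Real.sqrt_sq h2.le]
  have : R + (R + c * X) ≠ 0 := by linarith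
  field_simp
  ring

lemma par_surj (R c ξ : ℝ) (h1 : -R ≤ ξ) (h2 : ξ ≤ R) :
    ∃ X ∈ Icc (-1 : ℝ) 1, c * X ^ 2 / 2 + R * X - c / 2 = ξ := by
  have hI := intermediate_value_Icc (a := -1) (b := 1) (by norm_num)
    (f := fun X : ℝ => c * X ^ 2 / 2 + R * X - c / 2) (by fun_prop)
  exact hI ⟨by linarith, by linarith⟩

lemma XX_spec (R c ξ : ℝ) (hc : 0 ≤ c) (hcR : c < R) (h1 : -R ≤ ξ) (h2 : ξ ≤ R) :
    XX R c ξ ∈ Icc (-1 : ℝ) 1 ∧ c * XX R c ξ ^ 2 / 2 + R * XX R c ξ - c / 2 = ξ := by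
  obtain ⟨X, hX, rfl⟩ := par_surj R c ξ h1 h2
  rw [XX_par R c X hc hcR hX.1]
  exact ⟨hX, rfl⟩

lemma lam_arg_pos (R c X : ℝ) (hc : 0 ≤ c) (hcR : c < R) (hX : X ∈ Icc (-1 : ℝ) 1) :
    0 < (R + c * (1 + X) / 2) * (R - c * (1 - X) / 2) := by
  have h1 : 0 < R + c * (1 + X) / 2 := by nlinarith [hX.1]
  have h2 : 0 < R - c * (1 - X) / 2 := by nlinarith [hX.1]
  positivity

lemma lam_pos (R c X : ℝ) (hc : 0 ≤ c) (hcR : c < R) (hX : X ∈ Icc (-1 : ℝ) 1) :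
    0 < lam R c X := Real.sqrt_pos.mpr (lam_arg_pos R c X hc hcR hX)

lemma lam_id (R c X : ℝ) (hc : 0 ≤ c) (hcR : c < R) (hX : X ∈ Icc (-1 : ℝ) 1) :
    R ^ 2 - (c * X ^ 2 / 2 + R * X - c / 2) ^ 2 = (1 - X ^ 2) * lam R c X ^ 2 := by
  unfold lam
  rw [Real.sq_sqrt (lam_arg_pos R c X hc hcR hX).le]
  ring

end Pool.Agent.H271Z.Rig
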