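import Mathlib
import Pool.Agent.H271Z.Rig.Steps
import Pool.Agent.H271Z.Rig.Lap

set_option autoImplicit false

namespace Pool.Agent.H271Z.Rig

open Real Set

lemma mem_cb (p : E3) : p ∈ Metric.closedBall (0 : E3) 1 ↔ p 0 ^ 2 + p 1 ^ 2 + p 2 ^ 2 ≤ 1 := by
  rw [mem_closedBall_zero_iff, EuclideanSpace.norm_eq, Real.sqrt_le_one]
  simp [Fin.sum_univ_three]

noncomputable def xi (e c : ℝ) (p : E3) : ℝ := e * w1 (p 0) (p 1) (p 2) + c * p 2 ^ 2 / 2

noncomputable def Phi (e c : ℝ) (p : E3) : E3 :=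
  !₂[XX (12 * e) c (xi e c p),
    e * w2 (p 0) (p 1) (p 2) / lam (12 * e) c (XX (12 * e) c (xi e c p)),
    zeta e c (xi e c p) (p 2) / lam (12 * e) c (XX (12 * e) c (xi e c p))]

section
variable {e c : ℝ} (he : 0 < e) (hc : 0 ≤ c) (hce : c ≤ 2 * e)
include he hc hce

lemma ball_bound {p : E3} (hp : p ∈ Metric.closedBall (0 : E3) 1) :
    xi e c p ^ 2 + (e * w2 (p 0) (p 1) (p 2)) ^ 2 + zeta e c (xi e c p) (p 2) ^ 2
      ≤ (12 * e) ^ 2 := by
  rw [mem_cb] at hp
  exact step2_maps e c _ _ _ he hc hce (by nlinarith [sq_nonneg (p 0), sq_nonneg (p 1)])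
    (step1_maps hp)

lemma xi_bound {p : E3} (hp : p ∈ Metric.closedBall (0 : E3) 1) :
    -(12 * e) ≤ xi e c p ∧ xi e c p ≤ 12 * e := by
  have := ball_bound he hc hce hp
  exact abs_le_of_sq_le_sq' (by
    nlinarith [sq_nonneg (e * w2 (p 0) (p 1) (p 2)), sq_nonneg (zeta e c (xi e c p) (p 2))])
    (by positivity)

lemma XX_xi {p : E3} (hp : p ∈ Metric.closedBall (0 : E3) 1) :
    XX (12 * e) c (xi e c p) ∈ Icc (-1 : ℝ) 1 ∧
      c * XX (12 * e) c (xi e c p) ^ 2 / 2 + 12 * e * XX (12 * e) c (xi e c p) - c / 2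
        = xi e c p :=
  XX_spec _ _ _ hc (by linarith) (xi_bound he hc hce hp).1 (xi_bound he hc hce hp).2

lemma Phi_maps {p : E3} (hp : p ∈ Metric.closedBall (0 : E3) 1) :
    Phi e c p ∈ Metric.closedBall (0 : E3) 1 := by
  obtain ⟨hX, hX'⟩ := XX_xi he hc hce hp
  have hb := ball_bound he hc hce hp
  have hl := lam_pos (12 * e) c _ hc (by linarith) hX
  have hid := lam_id (12 * e) c _ hc (by linarith) hX
  rw [hX'] at hid
  rw [mem_cb]
  simp only [Phi, PiLp.toLp_apply, Matrix.cons_val_zero, Matrix.cons_val_one, Matrix.cons_val_two,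
    Matrix.head_cons, Matrix.tail_cons]
  set X := XX (12 * e) c (xi e c p)
  set l := lam (12 * e) c X
  set η := e * w2 (p 0) (p 1) (p 2)
  set ζ := zeta e c (xi e c p) (p 2)
  have h1 : (η / l) ^ 2 + (ζ / l) ^ 2 = (η ^ 2 + ζ ^ 2) / l ^ 2 := by field_simp
  have h2 : (η ^ 2 + ζ ^ 2) / l ^ 2 ≤ 1 - X ^ 2 := by
    rw [div_le_iff₀ (by positivity)]; linarith
  linarith

lemma Phi_inj {p q : E3} (hp : p ∈ Metric.closedBall (0 : E3) 1)
    (hq : q ∈ Metric.closedBall (0 : E3) 1) (h : Phi e c p = Phi e c q) : p = q := by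
  have h0 : Phi e c p 0 = Phi e c q 0 := by rw [h]
  have h1 : Phi e c p 1 = Phi e c q 1 := by rw [h]
  have h2 : Phi e c p 2 = Phi e c q 2 := by rw [h]
  simp only [Phi, PiLp.toLp_apply, Matrix.cons_val_zero, Matrix.cons_val_one, Matrix.cons_val_two,
    Matrix.head_cons, Matrix.tail_cons] at h0 h1 h2
  obtain ⟨hX, hX'⟩ := XX_xi he hc hce hp
  obtain ⟨hY, hY'⟩ := XX_xi he hc hce hq
  have hl := lam_pos (12 * e) c _ hc (by linarith) hY
  have hxi : xi e c p = xi e c q := by rw [← hX', ← hY', h0]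
  rw [hxi] at h1 h2
  rw [div_left_inj' hl.ne'] at h1 h2
  have hp' := (mem_cb p).mp hp
  have hq' := (mem_cb q).mp hq
  have hz : p 2 = q 2 := step2_inj e c _ _ _ he hc hce (xi_bound he hc hce hq).2
    (by nlinarith [sq_nonneg (p 0), sq_nonneg (p 1)])
    (by nlinarith [sq_nonneg (q 0), sq_nonneg (q 1)]) h2
  unfold xi at hxi
  rw [hz] at hxi h1 hp'
  have ha : w1 (p 0) (p 1) (q 2) = w1 (q 0) (q 1) (q 2) :=
    mul_left_cancel₀ he.ne' (by linarith)
  have hb : w2 (p 0) (p 1) (q 2) = w2 (q 0) (q 1) (q 2) := mul_left_cancel₀ he.ne' h1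
  obtain ⟨hx, hy⟩ := step1_inj hp' hq' ha hb
  ext i
  fin_cases i
  · exact hx
  · exact hy
  · exact hz

lemma Phi_surj {q : E3} (hq : q ∈ Metric.closedBall (0 : E3) 1) :
    ∃ p ∈ Metric.closedBall (0 : E3) 1, Phi e c p = q := by
  have hq' := (mem_cb q).mp hq
  have hX : q 0 ∈ Icc (-1 : ℝ) 1 :=
    abs_le_of_sq_le_sq' (by nlinarith [sq_nonneg (q 1), sq_nonneg (q 2)]) zero_le_one
  have hl := lam_pos (12 * e) c _ hc (by linarith) hX
  have hid := lam_id (12 * e) c _ hc (by linarith) hX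
  have hpar := XX_par (12 * e) c (q 0) hc (by linarith) hX.1
  set ξ := c * q 0 ^ 2 / 2 + 12 * e * q 0 - c / 2 with hξ
  set l := lam (12 * e) c (q 0) with hl'
  obtain ⟨a, b, z, hz, hab, h1, h2, h3⟩ := step2_surj e c ξ (q 1 * l) (q 2 * l) he hc hce (by
    have : (q 1 ^ 2 + q 2 ^ 2) * l ^ 2 ≤ (1 - q 0 ^ 2) * l ^ 2 := by
      gcongr; linarith
    nlinarith)
  obtain ⟨x, y, hxy, hw1, hw2⟩ := step1_surj hz hab
  have hxi : xi e c !₂[x, y, z] = ξ := by
    unfold xi
    simp only [Matrix.cons_val_zero, Matrix.cons_val_one, Matrix.cons_val_two,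
      Matrix.head_cons, Matrix.tail_cons]
    rw [hw1, h1]
  refine ⟨!₂[x, y, z], (mem_cb _).mpr (by simpa using hxy), ?_⟩
  unfold Phi
  rw [hxi, hpar, ← hl']
  simp only [Matrix.cons_val_zero, Matrix.cons_val_one, Matrix.cons_val_two,
    Matrix.head_cons, Matrix.tail_cons]
  rw [hw2, h2, h3]
  ext i
  fin_cases i
  · simp
  · simp [hl.ne']
  · simp [hl.ne']

lemma Phi_cont : Continuous fun p : Metric.closedBall (0 : E3) 1 => Phi e c p := by
  have hxi : Continuous fun p : Metric.closedBall (0 : E3) 1 => xi e c p := by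
    unfold xi w1 PP QQ; fun_prop
  have hX : Continuous fun p : Metric.closedBall (0 : E3) 1 => XX (12 * e) c (xi e c p) := by
    unfold XX
    refine Continuous.div (by fun_prop) (by fun_prop) fun p => ?_
    positivity
  have hl : Continuous fun p : Metric.closedBall (0 : E3) 1 =>
      lam (12 * e) c (XX (12 * e) c (xi e c p)) := by
    unfold lam; fun_prop
  have hl0 : ∀ p : Metric.closedBall (0 : E3) 1,
      lam (12 * e) c (XX (12 * e) c (xi e c p)) ≠ 0 := fun p =>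
    (lam_pos (12 * e) c _ hc (by linarith) (XX_xi he hc hce p.2).1).ne'
  have hw : Continuous fun p : Metric.closedBall (0 : E3) 1 =>
      e * w2 ((p : E3) 0) ((p : E3) 1) ((p : E3) 2) := by
    unfold w2 PP QQ; fun_prop
  have hz : Continuous fun p : Metric.closedBall (0 : E3) 1 =>
      zeta e c (xi e c p) ((p : E3) 2) := by
    unfold zeta aa gg; fun_prop
  unfold Phi
  refine (PiLp.continuous_toLp 2 _).comp (continuous_pi fun i => ?_)
  fin_cases i
  · exact hX
  · exact hw.div hl hl0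
  · exact hz.div hl hl0

lemma exists_homeo :
    ∃ Φ : Metric.closedBall (0 : E3) 1 ≃ₜ Metric.closedBall (0 : E3) 1,
      ∀ p : Metric.closedBall (0 : E3) 1, (Φ p : E3) = Phi e c p := by
  let F : Metric.closedBall (0 : E3) 1 → Metric.closedBall (0 : E3) 1 :=
    fun p => ⟨Phi e c p, Phi_maps he hc hce p.2⟩
  have hF : Function.Bijective F := by
    constructor
    · intro p q h
      exact Subtype.ext (Phi_inj he hc hce p.2 q.2 (congrArg Subtype.val h))
    · intro q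
      obtain ⟨p, hp, h⟩ := Phi_surj he hc hce q.2
      exact ⟨⟨p, hp⟩, Subtype.ext h⟩
  have hc' : Continuous (Equiv.ofBijective F hF) := (Phi_cont he hc hce).subtype_mk _
  exact ⟨hc'.homeoOfEquivCompactToT2, fun p => rfl⟩

end

end Pool.Agent.H271Z.Rig
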