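import Mathlib
import Pool.Agent.H271Z.Rig.Defs

set_option autoImplicit false

namespace Pool.Agent.H271Z.Rig

open Real Set Filter Topology
open scoped InnerProductSpace

lemma inner_small (r : ℝ) (v w : E3) (hv : ‖v‖ ^ 2 ≤ 1.0201 * r ^ 2) (hv' : 0.9801 * r ^ 2 ≤ ‖v‖ ^ 2)
    (hw : ‖w‖ ^ 2 ≤ 1.0201 * r ^ 2) (hw' : 0.9801 * r ^ 2 ≤ ‖w‖ ^ 2)
    (h : ‖v - w‖ ^ 2 ≤ 1.0201 * (2 * r ^ 2)) (h' : 0.9801 * (2 * r ^ 2) ≤ ‖v - w‖ ^ 2) :
    |⟪v, w⟫_ℝ| ≤ 0.04 * r ^ 2 := by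
  have := norm_sub_sq_real v w
  rw [abs_le]; constructor <;> linarith

lemma quad_aux (r g : ℝ) (x y : ℝ) (hg : |g| ≤ 0.04 * r ^ 2) :
    -(0.04 * r ^ 2 * (x ^ 2 + y ^ 2)) ≤ 2 * (x * y * g) := by
  obtain ⟨h1, h2⟩ := abs_le.mp hg
  nlinarith [mul_nonneg (sub_nonneg.mpr h1) (sq_nonneg (x + y)),
    mul_nonneg (sub_nonneg.mpr h2) (sq_nonneg (x - y))]

lemma quad_aux2 (r b : ℝ) (x y : ℝ) (hr : 0 < r) (hb : |b| ≤ r / 10) :
    -((r ^ 2 * x ^ 2 + y ^ 2) / 10) ≤ 2 * (x * y * b) := by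
  obtain ⟨h1, h2⟩ := abs_le.mp hb
  have h3 : 0 ≤ r * (2 * (x * y * b) + (r ^ 2 * x ^ 2 + y ^ 2) / 10) := by
    nlinarith [mul_nonneg (sub_nonneg.mpr h1) (sq_nonneg (r * x + y)),
      mul_nonneg (sub_nonneg.mpr h2) (sq_nonneg (r * x - y))]
  by_contra hcon
  push Not at hcon
  have : r * (2 * (x * y * b) + (r ^ 2 * x ^ 2 + y ^ 2) / 10) < 0 :=
    mul_neg_of_pos_of_neg hr (by linarith)
  linarith

lemma four_vectors (r : ℝ) (hr : 0 < r) (v1 v2 v3 a : E3) (ha : ‖a‖ = 1)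
    (h1 : 0.9801 * r ^ 2 ≤ ‖v1‖ ^ 2) (h2 : 0.9801 * r ^ 2 ≤ ‖v2‖ ^ 2)
    (h3 : 0.9801 * r ^ 2 ≤ ‖v3‖ ^ 2)
    (g12 : |⟪v1, v2⟫_ℝ| ≤ 0.04 * r ^ 2) (g13 : |⟪v1, v3⟫_ℝ| ≤ 0.04 * r ^ 2)
    (g23 : |⟪v2, v3⟫_ℝ| ≤ 0.04 * r ^ 2)
    (b1 : |⟪v1, a⟫_ℝ| ≤ r / 10) (b2 : |⟪v2, a⟫_ℝ| ≤ r / 10) (b3 : |⟪v3, a⟫_ℝ| ≤ r / 10) :
    False := by
  have hdep : ¬ LinearIndependent ℝ ![v1, v2, v3, a] := by
    intro h
    have := h.fintype_card_le_finrank
    simp at this
  rw [Fintype.not_linearIndependent_iff] at hdep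
  obtain ⟨g, hg, i, hi⟩ := hdep
  simp only [Fin.sum_univ_four, Matrix.cons_val_zero, Matrix.cons_val_one, Matrix.cons_val_two,
    Matrix.cons_val_three, Matrix.head_cons, Matrix.tail_cons] at hg
  have hq : ⟪g 0 • v1 + g 1 • v2 + g 2 • v3 + g 3 • a, g 0 • v1 + g 1 • v2 + g 2 • v3 + g 3 • a⟫_ℝ
      = 0 := by rw [hg]; simp
  simp only [inner_add_left, inner_add_right, real_inner_smul_left, real_inner_smul_right,
    real_inner_self_eq_norm_sq, ha, norm_smul, mul_pow, Real.norm_eq_abs, sq_abs] at hq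
  rw [real_inner_comm v1 v2, real_inner_comm v1 v3, real_inner_comm v2 v3, real_inner_comm v1 a,
    real_inner_comm v2 a, real_inner_comm v3 a] at hq
  have q12 := quad_aux r _ (g 0) (g 1) g12
  have q13 := quad_aux r _ (g 0) (g 2) g13
  have q23 := quad_aux r _ (g 1) (g 2) g23
  have p1 := quad_aux2 r _ (g 0) (g 3) hr b1
  have p2 := quad_aux2 r _ (g 1) (g 3) hr b2
  have p3 := quad_aux2 r _ (g 2) (g 3) hr b3
  have n1 := mul_le_mul_of_nonneg_left h1 (sq_nonneg (g 0))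
  have n2 := mul_le_mul_of_nonneg_left h2 (sq_nonneg (g 1))
  have n3 := mul_le_mul_of_nonneg_left h3 (sq_nonneg (g 2))
  have key : r ^ 2 * g 0 ^ 2 + r ^ 2 * g 1 ^ 2 + r ^ 2 * g 2 ^ 2 + g 3 ^ 2 ≤ 0 := by
    have s0 : 0 ≤ r ^ 2 * g 0 ^ 2 := by positivity
    have s1 : 0 ≤ r ^ 2 * g 1 ^ 2 := by positivity
    have s2 : 0 ≤ r ^ 2 * g 2 ^ 2 := by positivity
    have s3 : 0 ≤ g 3 ^ 2 := by positivity
    linarith
  have s0 : 0 ≤ r ^ 2 * g 0 ^ 2 := by positivity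
  have s1 : 0 ≤ r ^ 2 * g 1 ^ 2 := by positivity
  have s2 : 0 ≤ r ^ 2 * g 2 ^ 2 := by positivity
  have s3 : 0 ≤ g 3 ^ 2 := by positivity
  fin_cases i
  · have : 0 < r ^ 2 * g 0 ^ 2 := by have : g 0 ≠ 0 := hi; positivity
    linarith
  · have : 0 < r ^ 2 * g 1 ^ 2 := by have : g 1 ≠ 0 := hi; positivity
    linarith
  · have : 0 < r ^ 2 * g 2 ^ 2 := by have : g 2 ≠ 0 := hi; positivity
    linarith
  · have : 0 < g 3 ^ 2 := by have : g 3 ≠ 0 := hi; positivity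
    linarith

/-- A function with a critical point at the origin that is not a local minimum is not nearly
isometric to a one-dimensional solution. -/
lemma not_nearIso (f : ℝ → ℝ) (hf : ∀ t, 0 ≤ f t) (u : E3 → ℝ) (C : ℝ) (hC : 0 < C)
    (hu : ∀ (i : Fin 3) (r : ℝ), 0 < r → r ≤ 1 →
      |u (EuclideanSpace.single i r) - u 0| ≤ C * r ^ 2)
    (hneg : ∀ δ : ℝ, 0 < δ → ∃ x ∈ Metric.ball (0 : E3) δ, u x < u 0) (δ : ℝ) (hδ : 0 < δ) :
    ¬ NearIsoToOneDim f u δ := by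
  rintro ⟨V, a, Φ, ⟨hV1, hV2, hV3⟩, ha, hΦ, hrep⟩
  have h0 : (0 : E3) ∈ Metric.ball (0 : E3) δ := Metric.mem_ball_self hδ
  set s0 := ⟪Φ 0, a⟫_ℝ with hs0
  have hu0 : u 0 = V s0 := hrep 0 h0
  by_cases hk : deriv V s0 = 0
  · have hmono : Monotone (deriv V) :=
      monotone_of_deriv_nonneg hV2 fun s => by rw [hV3]; exact hf _
    have hmin : ∀ s, V s0 ≤ V s := by
      intro s
      rcases le_total s0 s with h | h
      · have : MonotoneOn V (Ici s0) := monotoneOn_of_deriv_nonneg (convex_Ici _)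
          hV1.continuous.continuousOn hV1.differentiableOn fun x hx => by
            rw [interior_Ici] at hx
            rw [← hk]; exact hmono (le_of_lt hx)
        exact this self_mem_Ici h h
      · have : AntitoneOn V (Iic s0) := antitoneOn_of_deriv_nonpos (convex_Iic _)
          hV1.continuous.continuousOn hV1.differentiableOn fun x hx => by
            rw [interior_Iic] at hx
            rw [← hk]; exact hmono (le_of_lt hx)
        exact this h self_mem_Iic h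
    obtain ⟨x, hx, hx'⟩ := hneg δ hδ
    rw [hrep x hx, hu0] at hx'
    exact absurd (hmin _) (not_le.mpr hx')
  · set k := deriv V s0 with hk'
    have hkp : 0 < |k| := abs_pos.mpr hk
    have hlo := (hasDerivAt_iff_isLittleO.mp (hV1 s0).hasDerivAt).def (half_pos hkp)
    obtain ⟨ρ, hρ, hρ'⟩ := Metric.eventually_nhds_iff.mp hlo
    have hlow : ∀ s, |s - s0| < ρ → |k| / 2 * |s - s0| ≤ |V s - V s0| := by
      intro s hs
      have h1 := hρ' (y := s) (by rwa [Real.dist_eq])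
      simp only [Real.norm_eq_abs, smul_eq_mul] at h1
      have h2 : |(s - s0) * k| ≤ |V s - V s0| + |V s - V s0 - (s - s0) * k| := by
        have := abs_sub (V s - V s0) (V s - V s0 - (s - s0) * k)
        rwa [sub_sub_cancel] at this
      rw [abs_mul] at h2
      linarith
    obtain ⟨r, hr, hr1, hrδ, hrρ, hrk⟩ : ∃ r : ℝ, 0 < r ∧ r ≤ 1 ∧ r < δ ∧ 2 * r < ρ ∧
        20 * C * r ≤ |k| := by
      refine ⟨min (min 1 (δ / 2)) (min (ρ / 3) (|k| / (20 * C))), by positivity, ?_, ?_, ?_, ?_⟩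
      · exact le_trans (min_le_left _ _) (min_le_left _ _)
      · have : min (min 1 (δ / 2)) (min (ρ / 3) (|k| / (20 * C))) ≤ δ / 2 :=
          le_trans (min_le_left _ _) (min_le_right _ _)
        linarith
      · have : min (min 1 (δ / 2)) (min (ρ / 3) (|k| / (20 * C))) ≤ ρ / 3 :=
          le_trans (min_le_right _ _) (min_le_left _ _)
        linarith
      · have : min (min 1 (δ / 2)) (min (ρ / 3) (|k| / (20 * C))) ≤ |k| / (20 * C) :=
          le_trans (min_le_right _ _) (min_le_right _ _)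
        rw [le_div_iff₀ (by positivity)] at this
        linarith
    have hn : ∀ i : Fin 3, ‖(EuclideanSpace.single i r : E3)‖ = r := fun i => by
      simp [abs_of_pos hr]
    have hm : ∀ i : Fin 3, (EuclideanSpace.single i r : E3) ∈ Metric.ball (0 : E3) δ :=
      fun i => by rw [mem_ball_zero_iff, hn]; exact hrδ
    have hv : ∀ i : Fin 3, 99 / 100 * r ≤ ‖Φ (EuclideanSpace.single i r) - Φ 0‖ ∧
        ‖Φ (EuclideanSpace.single i r) - Φ 0‖ ≤ 101 / 100 * r := fun i => by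
      have := hΦ _ (hm i) 0 h0
      rwa [sub_zero, hn] at this
    have hv1 : ∀ i : Fin 3, ‖Φ (EuclideanSpace.single i r) - Φ 0‖ ^ 2 ≤ 1.0201 * r ^ 2 :=
      fun i => by
        have := pow_le_pow_left₀ (norm_nonneg _) (hv i).2 2
        nlinarith
    have hv2 : ∀ i : Fin 3, 0.9801 * r ^ 2 ≤ ‖Φ (EuclideanSpace.single i r) - Φ 0‖ ^ 2 :=
      fun i => by
        have := pow_le_pow_left₀ (by positivity) (hv i).1 2
        nlinarith
    have hg : ∀ i j : Fin 3, i ≠ j → |⟪Φ (EuclideanSpace.single i r) - Φ 0,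
        Φ (EuclideanSpace.single j r) - Φ 0⟫_ℝ| ≤ 0.04 * r ^ 2 := fun i j hij => by
      have hd : ‖(EuclideanSpace.single i r : E3) - EuclideanSpace.single j r‖ ^ 2 = 2 * r ^ 2 := by
        rw [norm_sub_sq_real, hn, hn]
        have : ⟪(EuclideanSpace.single i r : E3), (EuclideanSpace.single j r : E3)⟫_ℝ = 0 := by
          simp [EuclideanSpace.inner_single_left, hij]
        rw [this]; ring
      obtain ⟨k1, k2⟩ := hΦ _ (hm i) _ (hm j)
      have k3 := pow_le_pow_left₀ (norm_nonneg _) k2 2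
      have k4 := pow_le_pow_left₀ (by positivity) k1 2
      rw [mul_pow, hd] at k3 k4
      refine inner_small r _ _ (hv1 i) (hv2 i) (hv1 j) (hv2 j) ?_ ?_
      · rw [sub_sub_sub_cancel_right]; linarith
      · rw [sub_sub_sub_cancel_right]; linarith
    have hb : ∀ i : Fin 3, |⟪Φ (EuclideanSpace.single i r) - Φ 0, a⟫_ℝ| ≤ r / 10 := fun i => by
      have h1 : |⟪Φ (EuclideanSpace.single i r) - Φ 0, a⟫_ℝ| < ρ := by
        have := abs_real_inner_le_norm (Φ (EuclideanSpace.single i r) - Φ 0) a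
        rw [ha, mul_one] at this
        linarith [(hv i).2]
      rw [inner_sub_left] at h1 ⊢
      have h2 := hlow _ h1
      rw [← hrep _ (hm i), ← hu0] at h2
      have h3 := hu i r hr hr1
      have h4 : |k| / 2 * |⟪Φ (EuclideanSpace.single i r), a⟫_ℝ - s0| ≤ |k| / 2 * (r / 10) := by
        nlinarith
      exact le_of_mul_le_mul_left h4 (half_pos hkp)
    exact four_vectors r hr _ _ _ a ha (hv2 0) (hv2 1) (hv2 2) (hg 0 1 (by decide))
      (hg 0 2 (by decide)) (hg 1 2 (by decide)) (hb 0) (hb 1) (hb 2)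

end Pool.Agent.H271Z.Rig
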