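import Mathlib

set_option autoImplicit false

namespace Pool.Agent.H271Z.Rig

open Real Filter Topology Set
open scoped NNReal

lemma glue_global {E : Type*} [NormedAddCommGroup E] [NormedSpace ℝ E]
    (v : E → E) (K : ℝ≥0) (hl : LipschitzWith K v) (x0 : E)
    (loc : ∀ n : ℕ, ∃ α : ℝ → E, α 0 = x0 ∧
      ∀ t ∈ Ioo (-((n : ℝ) + 1)) ((n : ℝ) + 1), HasDerivAt α (v (α t)) t) :
    ∃ α : ℝ → E, α 0 = x0 ∧ ∀ t, HasDerivAt α (v (α t)) t := by
  choose α h0 hα using loc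
  have agree : ∀ (n m : ℕ) (t : ℝ), |t| < (n : ℝ) + 1 → |t| < (m : ℝ) + 1 → α n t = α m t := by
    intro n m t hn hm
    set r : ℝ := min ((n : ℝ) + 1) ((m : ℝ) + 1) with hr
    have hrn : r ≤ (n : ℝ) + 1 := min_le_left _ _
    have hrm : r ≤ (m : ℝ) + 1 := min_le_right _ _
    have htr : |t| < r := lt_min hn hm
    have hr0 : 0 < r := lt_of_le_of_lt (abs_nonneg t) htr
    refine ODE_solution_unique_of_mem_Ioo (v := fun _ => v) (s := fun _ => univ) (K := K)
      (a := -r) (b := r)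
      (t₀ := 0) (fun t _ => hl.lipschitzOnWith) ⟨by linarith, hr0⟩
      (fun s hs => ⟨hα n s ⟨by linarith [hs.1], by linarith [hs.2]⟩, trivial⟩)
      (fun s hs => ⟨hα m s ⟨by linarith [hs.1], by linarith [hs.2]⟩, trivial⟩)
      (by rw [h0, h0]) (abs_lt.mp htr)
  have hceil : ∀ t : ℝ, |t| < (⌈|t|⌉₊ : ℝ) + 1 := fun t => by
    have := Nat.le_ceil |t|; linarith
  refine ⟨fun t => α ⌈|t|⌉₊ t, h0 _, fun t => ?_⟩
  have hev : (fun s => α ⌈|s|⌉₊ s) =ᶠ[𝓝 t] α ⌈|t|⌉₊ := by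
    have : ∀ᶠ s in 𝓝 t, |s| < (⌈|t|⌉₊ : ℝ) + 1 :=
      continuous_abs.continuousAt.eventually (gt_mem_nhds (hceil t))
    filter_upwards [this] with s hs using agree _ _ s (hceil s) hs
  exact (hα _ t (abs_lt.mp (hceil t))).congr_of_eventuallyEq hev

lemma bounded_local {E : Type*} [NormedAddCommGroup E] [NormedSpace ℝ E] [CompleteSpace E]
    (v : E → E) (K M : ℝ≥0) (hl : LipschitzWith K v) (hb : ∀ x, ‖v x‖ ≤ M) (x0 : E) (n : ℕ) :
    ∃ α : ℝ → E, α 0 = x0 ∧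
      ∀ t ∈ Ioo (-((n : ℝ) + 1)) ((n : ℝ) + 1), HasDerivAt α (v (α t)) t := by
  have hn : (0 : ℝ) < (n : ℝ) + 1 := by positivity
  have h0 : (0 : ℝ) ∈ Icc (-((n : ℝ) + 1)) ((n : ℝ) + 1) := ⟨by linarith, by linarith⟩
  have hp : IsPicardLindelof (fun _ => v) (⟨0, h0⟩ : Icc (-((n : ℝ) + 1)) ((n : ℝ) + 1)) x0
      (M * ((n : ℝ≥0) + 1)) 0 M K :=
    ⟨fun t _ => hl.lipschitzOnWith, fun x _ => continuousOn_const, fun t _ x _ => hb x,
      by simp⟩
  obtain ⟨α, h1, h2⟩ := hp.exists_eq_forall_mem_Icc_hasDerivWithinAt₀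
  exact ⟨α, h1, fun t ht => (h2 t (Ioo_subset_Icc_self ht)).hasDerivAt (Icc_mem_nhds ht.1 ht.2)⟩

lemma hda_fst {α : ℝ → ℝ × ℝ} {w : ℝ × ℝ} {t : ℝ} (h : HasDerivAt α w t) :
    HasDerivAt (fun s => (α s).1) w.1 t :=
  (ContinuousLinearMap.fst ℝ ℝ ℝ).hasFDerivAt.comp_hasDerivAt t h

lemma hda_snd {α : ℝ → ℝ × ℝ} {w : ℝ × ℝ} {t : ℝ} (h : HasDerivAt α w t) :
    HasDerivAt (fun s => (α s).2) w.2 t :=
  (ContinuousLinearMap.snd ℝ ℝ ℝ).hasFDerivAt.comp_hasDerivAt t h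

lemma field_lip (f g : ℝ → ℝ) (K : ℝ≥0) (hf : LipschitzWith K f) (hg : LipschitzWith 1 g) :
    LipschitzWith (max 1 K) (fun p : ℝ × ℝ => (g p.2, f p.1)) := by
  have h1 : LipschitzWith 1 (fun p : ℝ × ℝ => g p.2) := by
    have := hg.comp (LipschitzWith.prod_snd (α := ℝ) (β := ℝ))
    rw [mul_one] at this
    exact this
  have h2 : LipschitzWith K (fun p : ℝ × ℝ => f p.1) := by
    have := hf.comp (LipschitzWith.prod_fst (α := ℝ) (β := ℝ))
    rw [mul_one] at this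
    exact this
  exact h1.prodMk h2

/-- Global solutions of `V'' = f(V)`. -/
lemma exists_second_order (f : ℝ → ℝ) (K M : ℝ≥0) (hf : LipschitzWith K f)
    (hb : ∀ x, |f x| ≤ M) (v0 p0 : ℝ) :
    ∃ α : ℝ → ℝ × ℝ, α 0 = (v0, p0) ∧ ∀ t, HasDerivAt α ((α t).2, f (α t).1) t := by
  refine glue_global (fun p : ℝ × ℝ => (p.2, f p.1)) (max 1 K)
    (field_lip f id K hf LipschitzWith.id) (v0, p0) fun n => ?_
  set L : ℝ := |p0| + M * ((n : ℝ) + 1) with hL
  have hL0 : 0 ≤ L := by positivity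
  have hcl : LipschitzWith 1 (fun p : ℝ => max (-L) (min L p)) := by
    simpa using ((LipschitzWith.id (α := ℝ)).const_min L).const_max (-L)
  obtain ⟨α, h0, hα⟩ := bounded_local (fun p : ℝ × ℝ => (max (-L) (min L p.2), f p.1)) (max 1 K)
    (max ⟨L, hL0⟩ M) (field_lip f _ K hf hcl) (fun x => by
      rw [Prod.norm_def]
      simp only [NNReal.coe_max, Real.norm_eq_abs]
      refine max_le_max ?_ (hb _)
      rw [abs_le]
      exact ⟨le_max_left _ _, max_le (by linarith) (min_le_left _ _)⟩) (v0, p0) n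
  refine ⟨α, h0, fun t ht => ?_⟩
  have hp : ∀ s ∈ Ioo (-((n : ℝ) + 1)) ((n : ℝ) + 1),
      HasDerivWithinAt (fun s => (α s).2) (f (α s).1) (Ioo (-((n : ℝ) + 1)) ((n : ℝ) + 1)) s :=
    fun s hs => (hda_snd (hα s hs)).hasDerivWithinAt
  have hn : (0 : ℝ) < (n : ℝ) + 1 := by positivity
  have hmv := Convex.norm_image_sub_le_of_norm_hasDerivWithin_le (C := M) hp
    (fun s _ => by simpa using hb _) (convex_Ioo _ _) (x := 0) (y := t)
    ⟨by linarith, hn⟩ ht
  simp only [h0, Real.norm_eq_abs, sub_zero] at hmv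
  have ht' : |t| ≤ (n : ℝ) + 1 := (abs_lt.mpr ht).le
  have h2 : |(α t).2| ≤ L := by
    have : (M : ℝ) * |t| ≤ M * ((n : ℝ) + 1) := by gcongr
    have h3 := abs_sub_abs_le_abs_sub (α t).2 p0
    linarith
  have h4 : max (-L) (min L (α t).2) = (α t).2 := by
    rw [abs_le] at h2
    rw [min_eq_right h2.2, max_eq_right h2.1]
  have := hα t ht
  simp only [h4] at this
  exact this

/-- A global solution which is the given parabola on `[-1,1]`. -/
lemma exists_profile (f : ℝ → ℝ) (K M : ℝ≥0) (hf : LipschitzWith K f)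
    (hb : ∀ x, |f x| ≤ M) (m R c : ℝ)
    (hq : ∀ s ∈ Icc (-1 : ℝ) 1, f (m + (c * s ^ 2 / 2 + R * s - c / 2)) = c) :
    ∃ V : ℝ → ℝ, (Differentiable ℝ V ∧ Differentiable ℝ (deriv V) ∧
      ∀ s : ℝ, deriv (deriv V) s = f (V s)) ∧
      ∀ s ∈ Icc (-1 : ℝ) 1, V s = m + (c * s ^ 2 / 2 + R * s - c / 2) := by
  obtain ⟨α, h0, hα⟩ := exists_second_order f K M hf hb (m - c / 2) R
  have h1 : ∀ t, HasDerivAt (fun s => (α s).1) (α t).2 t := fun t => hda_fst (hα t)
  have h2 : ∀ t, HasDerivAt (fun s => (α s).2) (f (α t).1) t := fun t => hda_snd (hα t)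
  have hd : deriv (fun s => (α s).1) = fun s => (α s).2 := funext fun t => (h1 t).deriv
  refine ⟨fun s => (α s).1, ⟨fun t => (h1 t).differentiableAt, ?_, ?_⟩, ?_⟩
  · rw [hd]; exact fun t => (h2 t).differentiableAt
  · intro s; rw [hd]; exact (h2 s).deriv
  · have hq' : ∀ t : ℝ, HasDerivAt
        (fun s : ℝ => ((m + (c * s ^ 2 / 2 + R * s - c / 2), c * s + R) : ℝ × ℝ))
        (c * t + R, c) t := by
      intro t
      refine HasDerivAt.prodMk ?_ ?_
      · have := ((((hasDerivAt_pow 2 t).const_mul c).div_const 2).add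
          ((hasDerivAt_id t).const_mul R)).sub_const (c / 2) |>.const_add m
        convert this using 1
        simp; ring
      · simpa using ((hasDerivAt_id t).const_mul c).add_const R
    have := ODE_solution_unique_of_mem_Icc (v := fun _ (p : ℝ × ℝ) => (p.2, f p.1))
      (s := fun _ => univ) (K := max 1 K) (a := -1) (b := 1) (t₀ := 0) (f := α)
      (g := fun s : ℝ => ((m + (c * s ^ 2 / 2 + R * s - c / 2), c * s + R) : ℝ × ℝ))
      (fun t _ => (field_lip f id K hf LipschitzWith.id).lipschitzOnWith)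
      ⟨by norm_num, by norm_num⟩
      (HasDerivAt.continuousOn fun t _ => hα t) (fun t _ => hα t) (fun _ _ => trivial)
      (HasDerivAt.continuousOn fun t _ => hq' t)
      (fun t ht => by
        have := hq' t
        simp only [hq t (Ioo_subset_Icc_self ht)]
        exact this) (fun _ _ => trivial) (by rw [h0]; simp; ring)
    intro s hs
    have h := this hs
    simp only [h]

end Pool.Agent.H271Z.Rig
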