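import Mathlib
import Pool.Agent.H271Z.Rig.Defs
import Pool.Agent.H271Z.Rig.Ode
import Pool.Agent.H271Z.Rig.Homeo
import Pool.Agent.H271Z.Rig.Neg

set_option autoImplicit false

namespace Pool.Agent.H271Z.Rig

open Real Set
open scoped InnerProductSpace ContDiff

theorem main (f : ℝ → ℝ) (hf : ContDiff ℝ ∞ f) (hfc : HasCompactSupport f) (hf0 : ∀ t, 0 ≤ f t)
    (m R c : ℝ) (hR : 0 < R) (hcR : 6 * c ≤ R) (hconst : ∀ t ∈ Icc (m - R) (m + R), f t = c) :
    ∃ u : E3 → ℝ, ContDiff ℝ ∞ u ∧
      (∀ x ∈ Metric.ball (0 : E3) 1, u x ∈ Icc (m - R) (m + R)) ∧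
      (∀ x ∈ Metric.ball (0 : E3) 1, Laplacian.laplacian u x = f (u x)) ∧
      HomeoToOneDim f u ∧ ∀ δ : ℝ, 0 < δ → ¬ NearIsoToOneDim f u δ := by
  obtain ⟨e, rfl⟩ : ∃ e : ℝ, R = 12 * e := ⟨R / 12, by ring⟩
  have he : 0 < e := by linarith
  have hc : 0 ≤ c := by
    rw [← hconst m ⟨by linarith, by linarith⟩]; exact hf0 m
  have hce : c ≤ 2 * e := by linarith
  have hrange : ∀ x ∈ Metric.ball (0 : E3) 1, uu m e c x ∈ Icc (m - 12 * e) (m + 12 * e) := by
    intro x hx
    have := xi_bound he hc hce (Metric.ball_subset_closedBall hx)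
    unfold xi at this
    unfold uu
    constructor <;> linarith [this.1, this.2]
  refine ⟨uu m e c, uu_smooth m e c _, hrange, fun x hx => ?_, ?_, ?_⟩
  · rw [uu_lap, hconst _ (hrange x hx)]
  · obtain ⟨K, hK⟩ := ContDiff.lipschitzWith_of_hasCompactSupport hfc hf (by simp)
    obtain ⟨M, hM⟩ := hf.continuous.bounded_above_of_compact_support hfc
    obtain ⟨V, hV, hVq⟩ := exists_profile f K ⟨max M 0, le_max_right _ _⟩ hK
      (fun x => le_trans (hM x) (le_max_left _ _)) m (12 * e) c (fun s hs => by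
        apply hconst
        obtain ⟨h1, h2⟩ := hs
        constructor
        · nlinarith [mul_nonneg (sub_nonneg.mpr h1) (show 0 ≤ 12 * e - c * (1 - s) / 2 by nlinarith)]
        · nlinarith [mul_nonneg (sub_nonneg.mpr h2) (show 0 ≤ 12 * e + c * (1 + s) / 2 by nlinarith)])
    obtain ⟨Φ, hΦ⟩ := exists_homeo he hc hce
    refine ⟨V, EuclideanSpace.single 0 1, Φ, hV, by simp, fun x _ => ?_⟩
    have h1 : ⟪(Φ x : E3), (EuclideanSpace.single 0 1 : E3)⟫_ℝ = XX (12 * e) c (xi e c x) := by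
      rw [hΦ, EuclideanSpace.inner_single_right]
      simp [Phi]
    obtain ⟨hX, hX'⟩ := XX_xi he hc hce x.2
    rw [h1, hVq _ hX, hX']
    rfl
  · have h0 : uu m e c 0 = m := by simp [uu, w1]
    refine not_nearIso f hf0 _ (12 * e + c) (by positivity) (fun i r hr hr1 => ?_) (fun δ hδ => ?_)
    · rw [h0]
      have hr2 : r ^ 3 ≤ r ^ 2 := pow_le_pow_of_le_one hr.le hr1 (by norm_num)
      have hr3 : r ^ 5 ≤ r ^ 2 := pow_le_pow_of_le_one hr.le hr1 (by norm_num)
      fin_cases i
      · have : uu m e c (EuclideanSpace.single 0 r) - m = e * (8 * r ^ 3 + 4 * r ^ 5) := by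
          simp [uu, w1, PP]; left; ring
        simp only [Fin.zero_eta]
        rw [this, abs_of_nonneg (by positivity)]
        nlinarith [mul_nonneg hc (sq_nonneg r)]
      · have : uu m e c (EuclideanSpace.single 1 r) - m = 0 := by
          simp [uu, w1]
        simp only [Fin.mk_one]
        rw [this, abs_zero]
        positivity
      · have : uu m e c (EuclideanSpace.single 2 r) - m = c * r ^ 2 / 2 := by
          simp [uu, w1]
        simp only [Fin.reduceFinMk]
        rw [this, abs_of_nonneg (by positivity)]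
        nlinarith [mul_nonneg hc (sq_nonneg r), mul_nonneg he.le (sq_nonneg r)]
    · refine ⟨EuclideanSpace.single 0 (-(δ / 2)), ?_, ?_⟩
      · rw [mem_ball_zero_iff]
        simp [abs_of_pos hδ]
        linarith
      · have : uu m e c (EuclideanSpace.single 0 (-(δ / 2))) =
            m - e * (8 * (δ / 2) ^ 3 + 4 * (δ / 2) ^ 5) := by
          simp [uu, w1, PP]; ring
        rw [this, h0]
        have : 0 < e * (8 * (δ / 2) ^ 3 + 4 * (δ / 2) ^ 5) := by positivity
        linarith

end Pool.Agent.H271Z.Rig
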